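import Mathlib

/-!
# The curse of dimensionality for the `L_1`-type integration problem with non-negative weights

For non-negative quadrature formulas with `N` nodes on the space `F_{d,∞}` (the case `p = 1`) we
show `e⁺(N,d) ≥ 2^{-d} (1 - N c^d)` with `c = 4 √3 - 6 = 0.928...`.  Hence
`N⁺(ε,d) ≥ (1 - ε) (1/2 + 1/√3)^d` for all `d` and all `ε ∈ (0,1)`.

Idea: `|S - P| = S + P - 2 min (S, P)` for the local discrepancy, where `S = ∑ a_k 1_{t_k < x}` and
`P = x_1 ⋯ x_d`, and `min (S, P) ≤ ∑_k √(a_k P) 1_{t_k < x}` because all `a_k` are non-negative.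
Every term of the last sum is integrated exactly, and the optimisation over `a_k ≥ 0` and over the
node `t_k` separates the coordinates.
-/

set_option autoImplicit false

open MeasureTheory Set Filter
open scoped ENNReal

namespace Pool.Agent.Results.MP_2335a4_an.CurseHolds

/-- The unit ball of `F_{d,∞}`: the functions `f` on the cube `[0,1]^d` which vanish if some
coordinate equals `1` and whose mixed derivative `h = ∂^d f/∂x_1⋯∂x_d` is bounded by `1` almost
everywhere, that is, the functions `f(x) = (-1)^d ∫_{[x,1]} h(y) dy` with `|h| ≤ 1` almost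
everywhere. -/
def unitBall (d : ℕ) : Set ((Fin d → ℝ) → ℝ) :=
  {f | ∃ h : (Fin d → ℝ) → ℝ, Measurable h ∧ (∀ᵐ y, |h y| ≤ 1) ∧
    ∀ x ∈ Icc (0 : Fin d → ℝ) 1, f x = (-1) ^ d * ∫ y in Icc x 1, h y}

/-- The worst case error of the quadrature formula `A f = ∑ k, a k * f (t k)` on the unit ball. -/
noncomputable def worstError {d N : ℕ} (t : Fin N → Fin d → ℝ) (a : Fin N → ℝ) : ℝ≥0∞ :=
  ⨆ f ∈ unitBall d,
    ENNReal.ofReal |(∫ x in Icc (0 : Fin d → ℝ) 1, f x) - ∑ k, a k * f (t k)|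

/-- `e⁺(N,d)`: the infimum of the worst case errors of the quadrature formulas with `N` nodes in
`[0,1)^d` and non-negative weights. -/
noncomputable def minError (N d : ℕ) : ℝ≥0∞ :=
  ⨅ (t : Fin N → Fin d → ℝ) (a : Fin N → ℝ) (_ : ∀ k j, t k j ∈ Ico (0 : ℝ) 1)
    (_ : ∀ k, 0 ≤ a k), worstError t a

/-- `N⁺(ε,d)`: the least `N` with `e⁺(N,d) ≤ ε 2^{-d}` (and `⊤` if there were no such `N`). -/
noncomputable def complexity (ε : ℝ) (d : ℕ) : ℕ∞ :=
  ⨅ (N : ℕ) (_ : minError N d ≤ ENNReal.ofReal (ε * (1 / 2) ^ d)), (N : ℕ∞)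

/-! ### One-dimensional integrals -/

lemma int1 {t : ℝ} (h0 : 0 ≤ t) (h1 : t ≤ 1) :
    ∫ y in Icc (0:ℝ) 1, (Ici t).indicator (fun _ => (1:ℝ)) y = 1 - t := by
  rw [integral_indicator measurableSet_Ici, Measure.restrict_restrict measurableSet_Ici]
  have : Ici t ∩ Icc 0 1 = Icc t 1 := by
    ext y; simp only [mem_inter_iff, mem_Ici, mem_Icc]; constructor
    · rintro ⟨a, b, c⟩; exact ⟨a, c⟩
    · rintro ⟨a, b⟩; exact ⟨a, h0.trans a, b⟩
  rw [this]
  simp [h1]

lemma int2 {t : ℝ} (h0 : 0 ≤ t) (h1 : t ≤ 1) :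
    ∫ y in Icc (0:ℝ) 1, (Ici t).indicator (fun y => √y) y = 2 / 3 * (1 - t * √t) := by
  rw [integral_indicator measurableSet_Ici, Measure.restrict_restrict measurableSet_Ici]
  have : Ici t ∩ Icc 0 1 = Icc t 1 := by
    ext y; simp only [mem_inter_iff, mem_Ici, mem_Icc]; constructor
    · rintro ⟨a, b, c⟩; exact ⟨a, c⟩
    · rintro ⟨a, b⟩; exact ⟨a, h0.trans a, b⟩
  rw [this, integral_Icc_eq_integral_Ioc, ← intervalIntegral.integral_of_le h1]
  have : ∫ y in t..1, √y = ∫ y in t..1, y ^ (1/2 : ℝ) := by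
    congr 1; ext y; rw [Real.sqrt_eq_rpow]
  rw [this, integral_rpow (Or.inl (by norm_num))]
  have h2 : t ^ ((1:ℝ)/2 + 1) = t * √t := by
    rcases h0.eq_or_lt with rfl | h
    · simp; norm_num
    · rw [Real.rpow_add h, Real.rpow_one, Real.sqrt_eq_rpow, mul_comm]
  rw [h2, Real.one_rpow]
  ring

lemma int3 : ∫ y in Icc (0:ℝ) 1, y = 1 / 2 := by
  rw [integral_Icc_eq_integral_Ioc, ← intervalIntegral.integral_of_le zero_le_one, integral_id]
  norm_num

lemma w_sq : √3 ^ 2 = (3 : ℝ) := Real.sq_sqrt (by norm_num)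

lemma w_gt : (1.7 : ℝ) < √3 := by
  rw [Real.lt_sqrt (by norm_num)]; norm_num

lemma w_lt : √3 < (1.75 : ℝ) := by
  rw [Real.sqrt_lt' (by norm_num)]; norm_num

/-- The one-dimensional optimisation over the position of the node. -/
lemma key {t : ℝ} (h0 : 0 ≤ t) (h1 : t ≤ 1) :
    (2 / 3 * (1 - t * √t)) ^ 2 ≤ (1 - t) * (2 * √3 - 3) := by
  obtain ⟨s, hs, rfl⟩ : ∃ s : ℝ, 0 ≤ s ∧ t = s ^ 2 :=
    ⟨√t, Real.sqrt_nonneg _, (Real.sq_sqrt h0).symm⟩
  rw [Real.sqrt_sq hs]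
  have hs1 : s ≤ 1 := by nlinarith
  have hw := w_sq
  have hw1 := w_gt
  have hw2 := w_lt
  set w := √3 with hwdef
  have hq : 0 ≤ s ^ 3 + w * s ^ 2 + (3 - w / 2) * s + (5 * w / 2 - 4) := by
    have h3 : 0 ≤ (3 - w / 2) * s := mul_nonneg (by linarith) hs
    have h4 : 0 ≤ w * s ^ 2 := by positivity
    have h5 : 0 ≤ s ^ 3 := by positivity
    linarith
  have h := mul_nonneg (mul_nonneg (sub_nonneg.2 hs1) (sq_nonneg (s - (w - 1) / 2))) hq
  have e : (1 - s ^ 2) * (2 * w - 3) - (2 / 3 * (1 - s ^ 2 * s)) ^ 2 =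
      4 / 9 * ((1 - s) * (s - (w - 1) / 2) ^ 2 *
        (s ^ 3 + w * s ^ 2 + (3 - w / 2) * s + (5 * w / 2 - 4))) := by
    have h3 : w ^ 3 = 3 * w := by rw [pow_succ, hw]
    ring_nf
    rw [h3, hw]
    ring
  linarith

/-! ### Integrals over the cube -/

variable {d N : ℕ}

lemma cube_measure : (volume : Measure (Fin d → ℝ)).restrict (Icc 0 1) =
    Measure.pi fun _ : Fin d => (volume : Measure ℝ).restrict (Icc 0 1) := by
  rw [← Measure.restrict_pi_pi, ← Set.pi_univ_Icc]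
  rfl

lemma prod_int (f : Fin d → ℝ → ℝ) :
    ∫ y in Icc (0 : Fin d → ℝ) 1, ∏ j, f j (y j) = ∏ j, ∫ y in Icc (0:ℝ) 1, f j y := by
  rw [cube_measure, integral_fintype_prod_eq_prod]

lemma indicator_prod {s y : Fin d → ℝ} (hy : y ∈ Icc (0 : Fin d → ℝ) 1) :
    (Icc s 1).indicator (fun _ => (1:ℝ)) y = ∏ j, (Ici (s j)).indicator (fun _ => (1:ℝ)) (y j) := by
  by_cases h : s ≤ y
  · rw [indicator_of_mem (show y ∈ Icc s 1 from ⟨h, hy.2⟩)]
    symm
    apply Finset.prod_eq_one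
    intro j _
    rw [indicator_of_mem (show y j ∈ Ici (s j) from h j)]
  · rw [indicator_of_notMem (fun hh => h hh.1)]
    rw [Pi.le_def] at h
    push Not at h
    obtain ⟨j, hj⟩ := h
    symm
    apply Finset.prod_eq_zero (Finset.mem_univ j)
    rw [indicator_of_notMem]
    simpa using hj

lemma int_u {s : Fin d → ℝ} (hs : ∀ j, s j ∈ Ico (0:ℝ) 1) :
    ∫ y in Icc (0 : Fin d → ℝ) 1, (Icc s 1).indicator (fun _ => (1:ℝ)) y = ∏ j, (1 - s j) := by
  rw [setIntegral_congr_fun measurableSet_Icc fun y hy => indicator_prod hy,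
    prod_int fun j => (Ici (s j)).indicator (fun _ => (1:ℝ))]
  exact Finset.prod_congr rfl fun j _ => int1 (hs j).1 (hs j).2.le

lemma sqrt_prod_cube {y : Fin d → ℝ} (hy : y ∈ Icc (0 : Fin d → ℝ) 1) :
    √(∏ j, y j) = ∏ j, √(y j) := by
  have : ∀ s : Finset (Fin d), √(∏ j ∈ s, y j) = ∏ j ∈ s, √(y j) := by
    intro s
    induction s using Finset.induction_on with
    | empty => simp
    | insert a s ha ih =>
      rw [Finset.prod_insert ha, Finset.prod_insert ha, Real.sqrt_mul (hy.1 a), ih]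
  exact this _

lemma int_v {s : Fin d → ℝ} (hs : ∀ j, s j ∈ Ico (0:ℝ) 1) :
    ∫ y in Icc (0 : Fin d → ℝ) 1, (Icc s 1).indicator (fun _ => (1:ℝ)) y * √(∏ j, y j) =
      ∏ j, (2 / 3 * (1 - s j * √(s j))) := by
  have h : ∀ y ∈ Icc (0 : Fin d → ℝ) 1, (Icc s 1).indicator (fun _ => (1:ℝ)) y * √(∏ j, y j) =
      ∏ j, (Ici (s j)).indicator (fun y => √y) (y j) := by
    intro y hy
    rw [indicator_prod hy, sqrt_prod_cube hy, ← Finset.prod_mul_distrib]
    refine Finset.prod_congr rfl fun j _ => ?_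
    by_cases hj : y j ∈ Ici (s j)
    · rw [indicator_of_mem hj, indicator_of_mem hj, one_mul]
    · rw [indicator_of_notMem hj, indicator_of_notMem hj, zero_mul]
  rw [setIntegral_congr_fun measurableSet_Icc h,
    prod_int fun j => (Ici (s j)).indicator (fun y => √y)]
  exact Finset.prod_congr rfl fun j _ => int2 (hs j).1 (hs j).2.le

lemma int_P : ∫ y in Icc (0 : Fin d → ℝ) 1, ∏ j, y j = (1 / 2) ^ d := by
  rw [prod_int fun _ y => y]
  simp [int3]

/-- The local discrepancy. -/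
noncomputable def D (t : Fin N → Fin d → ℝ) (a : Fin N → ℝ) (y : Fin d → ℝ) : ℝ :=
  ∑ k, a k * (Icc (t k) 1).indicator (fun _ => (1:ℝ)) y - ∏ j, y j

/-- The pointwise inequality. -/
lemma pointwise (b : Fin N → ℝ) (hb : ∀ k, 0 ≤ b k) {P : ℝ} (hP : 0 ≤ P) :
    P + ∑ k, (b k - 2 * (√(b k) * √P)) ≤ |∑ k, b k - P| := by
  have hmin : min (∑ k, b k) P ≤ ∑ k, √(b k) * √P := by
    by_cases h : ∃ k, P ≤ b k
    · obtain ⟨k, hk⟩ := h
      have h1 : P ≤ √(b k) * √P := by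
        calc P = √P * √P := (Real.mul_self_sqrt hP).symm
          _ ≤ √(b k) * √P := mul_le_mul_of_nonneg_right (Real.sqrt_le_sqrt hk) (Real.sqrt_nonneg _)
      have h2 : √(b k) * √P ≤ ∑ k, √(b k) * √P :=
        Finset.single_le_sum (f := fun k => √(b k) * √P)
          (fun i _ => mul_nonneg (Real.sqrt_nonneg _) (Real.sqrt_nonneg _)) (Finset.mem_univ k)
      exact (min_le_right _ _).trans (h1.trans h2)
    · push Not at h
      refine (min_le_left _ _).trans (Finset.sum_le_sum fun k _ => ?_)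
      calc b k = √(b k) * √(b k) := (Real.mul_self_sqrt (hb k)).symm
        _ ≤ √(b k) * √P := mul_le_mul_of_nonneg_left (Real.sqrt_le_sqrt (h k).le) (Real.sqrt_nonneg _)
  have habs : |∑ k, b k - P| = ∑ k, b k + P - 2 * min (∑ k, b k) P := by
    rcases le_total (∑ k, b k) P with h | h
    · rw [min_eq_left h, abs_of_nonpos (by linarith)]; ring
    · rw [min_eq_right h, abs_of_nonneg (by linarith)]; ring
  rw [habs, Finset.sum_sub_distrib, ← Finset.mul_sum]
  linarith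

lemma cube_finite : IsFiniteMeasure ((volume : Measure (Fin d → ℝ)).restrict (Icc 0 1)) :=
  ⟨by rw [Measure.restrict_apply_univ]; exact isCompact_Icc.measure_lt_top⟩

lemma integrable_bdd {f : (Fin d → ℝ) → ℝ} (hf : Measurable f) {C : ℝ}
    (hC : ∀ y ∈ Icc (0 : Fin d → ℝ) 1, |f y| ≤ C) :
    IntegrableOn f (Icc (0 : Fin d → ℝ) 1) := by
  have := cube_finite (d := d)
  refine ⟨hf.aestronglyMeasurable, ?_⟩
  apply HasFiniteIntegral.of_bounded (C := C)
  rw [ae_restrict_iff' measurableSet_Icc]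
  exact Eventually.of_forall fun y hy => hC y hy

lemma prod_bdd {y : Fin d → ℝ} (hy : y ∈ Icc (0 : Fin d → ℝ) 1) :
    0 ≤ ∏ j, y j ∧ ∏ j, y j ≤ 1 :=
  ⟨Finset.prod_nonneg fun j _ => hy.1 j, Finset.prod_le_one (fun j _ => hy.1 j) fun j _ => hy.2 j⟩

lemma meas_prod : Measurable fun y : Fin d → ℝ => ∏ j, y j := by fun_prop

lemma meas_ind (s : Fin d → ℝ) : Measurable ((Icc s 1).indicator (fun _ => (1:ℝ))) :=
  measurable_const.indicator measurableSet_Icc

lemma ind_bdd (s y : Fin d → ℝ) :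
    0 ≤ (Icc s 1).indicator (fun _ => (1:ℝ)) y ∧ (Icc s 1).indicator (fun _ => (1:ℝ)) y ≤ 1 := by
  by_cases h : y ∈ Icc s 1
  · rw [indicator_of_mem h]; exact ⟨zero_le_one, le_rfl⟩
  · rw [indicator_of_notMem h]; exact ⟨le_rfl, zero_le_one⟩

lemma meas_D (t : Fin N → Fin d → ℝ) (a : Fin N → ℝ) : Measurable (D t a) := by
  unfold D
  exact (Finset.measurable_sum _ fun k _ => (meas_ind (t k)).const_mul (a k)).sub meas_prod

lemma D_bdd (t : Fin N → Fin d → ℝ) (a : Fin N → ℝ) :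
    ∀ y ∈ Icc (0 : Fin d → ℝ) 1, |D t a y| ≤ ∑ k, |a k| + 1 := by
  intro y hy
  unfold D
  refine (abs_sub _ _).trans (add_le_add ((Finset.abs_sum_le_sum_abs _ _).trans
    (Finset.sum_le_sum fun k _ => ?_)) ?_)
  · rw [abs_mul, abs_of_nonneg (ind_bdd (t k) y).1]
    exact mul_le_of_le_one_right (abs_nonneg _) (ind_bdd (t k) y).2
  · rw [abs_of_nonneg (prod_bdd hy).1]; exact (prod_bdd hy).2

lemma integrable_D (t : Fin N → Fin d → ℝ) (a : Fin N → ℝ) :
    IntegrableOn (D t a) (Icc (0 : Fin d → ℝ) 1) := integrable_bdd (meas_D t a) (D_bdd t a)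

/-- The lower bound for the `L_1`-discrepancy. -/
lemma disc_lower (t : Fin N → Fin d → ℝ) (ht : ∀ k j, t k j ∈ Ico (0:ℝ) 1) (a : Fin N → ℝ)
    (ha : ∀ k, 0 ≤ a k) :
    (1 / 2) ^ d * (1 - N * (4 * √3 - 6) ^ d) ≤
      ∫ y in Icc (0 : Fin d → ℝ) 1, |D t a y| := by
  have hi1 : ∀ k, IntegrableOn (fun y => (Icc (t k) 1).indicator (fun _ => (1:ℝ)) y)
      (Icc (0 : Fin d → ℝ) 1) := fun k =>
    integrable_bdd (meas_ind (t k)) (C := 1) fun y _ => by
      rw [abs_of_nonneg (ind_bdd (t k) y).1]; exact (ind_bdd (t k) y).2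
  have hi2 : ∀ k, IntegrableOn
      (fun y => (Icc (t k) 1).indicator (fun _ => (1:ℝ)) y * √(∏ j, y j))
      (Icc (0 : Fin d → ℝ) 1) := fun k =>
    integrable_bdd ((meas_ind (t k)).mul meas_prod.sqrt) (C := 1) fun y hy => by
      rw [abs_mul, abs_of_nonneg (ind_bdd (t k) y).1, abs_of_nonneg (Real.sqrt_nonneg _)]
      exact mul_le_one₀ (ind_bdd (t k) y).2 (Real.sqrt_nonneg _)
        (Real.sqrt_le_one.2 (prod_bdd hy).2)
  have hiP : IntegrableOn (fun y : Fin d → ℝ => ∏ j, y j) (Icc (0 : Fin d → ℝ) 1) :=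
    integrable_bdd meas_prod (C := 1) fun y hy => by
      rw [abs_of_nonneg (prod_bdd hy).1]; exact (prod_bdd hy).2
  -- the pointwise lower bound
  have hpt : ∀ y ∈ Icc (0 : Fin d → ℝ) 1,
      ∏ j, y j + ∑ k, (a k * (Icc (t k) 1).indicator (fun _ => (1:ℝ)) y -
        2 * √(a k) * ((Icc (t k) 1).indicator (fun _ => (1:ℝ)) y * √(∏ j, y j))) ≤ |D t a y| := by
    intro y hy
    have h := pointwise (fun k => a k * (Icc (t k) 1).indicator (fun _ => (1:ℝ)) y)
      (fun k => mul_nonneg (ha k) (ind_bdd (t k) y).1) (prod_bdd hy).1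
    refine le_trans (le_of_eq ?_) h
    congr 1
    refine Finset.sum_congr rfl fun k _ => ?_
    by_cases hk : y ∈ Icc (t k) 1
    · simp only [indicator_of_mem hk]; ring_nf
    · simp only [indicator_of_notMem hk]; simp
  have hi3 : ∀ k, IntegrableOn
      (fun y => a k * (Icc (t k) 1).indicator (fun _ => (1:ℝ)) y -
        2 * √(a k) * ((Icc (t k) 1).indicator (fun _ => (1:ℝ)) y * √(∏ j, y j)))
      (Icc (0 : Fin d → ℝ) 1) := fun k => ((hi1 k).const_mul _).sub ((hi2 k).const_mul _)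
  have hi4 : IntegrableOn
      (fun y => ∑ k, (a k * (Icc (t k) 1).indicator (fun _ => (1:ℝ)) y -
        2 * √(a k) * ((Icc (t k) 1).indicator (fun _ => (1:ℝ)) y * √(∏ j, y j))))
      (Icc (0 : Fin d → ℝ) 1) := integrable_finsetSum _ fun k _ => hi3 k
  have hint : ∫ y in Icc (0 : Fin d → ℝ) 1, (∏ j, y j +
      ∑ k, (a k * (Icc (t k) 1).indicator (fun _ => (1:ℝ)) y -
        2 * √(a k) * ((Icc (t k) 1).indicator (fun _ => (1:ℝ)) y * √(∏ j, y j)))) =
      (1 / 2) ^ d + ∑ k, (a k * ∏ j, (1 - t k j) -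
        2 * √(a k) * ∏ j, (2 / 3 * (1 - t k j * √(t k j)))) := by
    rw [integral_add hiP hi4, int_P, integral_finsetSum _ fun k _ => hi3 k]
    congr 1
    refine Finset.sum_congr rfl fun k _ => ?_
    rw [integral_sub ((hi1 k).const_mul _) ((hi2 k).const_mul _), integral_const_mul,
      integral_const_mul, int_u (ht k), int_v (ht k)]
  have hle : ∫ y in Icc (0 : Fin d → ℝ) 1, (∏ j, y j +
      ∑ k, (a k * (Icc (t k) 1).indicator (fun _ => (1:ℝ)) y -
        2 * √(a k) * ((Icc (t k) 1).indicator (fun _ => (1:ℝ)) y * √(∏ j, y j)))) ≤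
      ∫ y in Icc (0 : Fin d → ℝ) 1, |D t a y| :=
    setIntegral_mono_on (hiP.add hi4) (integrable_D t a).abs measurableSet_Icc hpt
  rw [hint] at hle
  refine le_trans ?_ hle
  -- optimisation over the weights
  have hw0 : 0 ≤ 2 * √3 - 3 := by have := w_gt; linarith
  have hterm : ∀ k, -(2 * √3 - 3) ^ d ≤ a k * ∏ j, (1 - t k j) -
      2 * √(a k) * ∏ j, (2 / 3 * (1 - t k j * √(t k j))) := by
    intro k
    set u := ∏ j, (1 - t k j) with hu
    set v := ∏ j, (2 / 3 * (1 - t k j * √(t k j))) with hv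
    have hu0 : 0 ≤ u := Finset.prod_nonneg fun j _ => by have := (ht k j).2; linarith
    have hv2 : v ^ 2 ≤ u * (2 * √3 - 3) ^ d := by
      have : u * (2 * √3 - 3) ^ d = ∏ j : Fin d, ((1 - t k j) * (2 * √3 - 3)) := by
        rw [Finset.prod_mul_distrib]; simp [hu]
      rw [this, hv, ← Finset.prod_pow]
      exact Finset.prod_le_prod (fun j _ => sq_nonneg _) fun j _ => key (ht k j).1 (ht k j).2.le
    have hc0 : 0 ≤ (2 * √3 - 3) ^ d := pow_nonneg hw0 d
    set c := (2 * √3 - 3) ^ d with hc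
    have h1 : √(a k) * v ≤ √(a k * u) * √c := by
      rw [Real.sqrt_mul (ha k), mul_assoc, ← Real.sqrt_mul hu0]
      exact mul_le_mul_of_nonneg_left (Real.le_sqrt_of_sq_le hv2) (Real.sqrt_nonneg _)
    have h2 := sq_nonneg (√(a k * u) - √c)
    have h3 : √(a k * u) ^ 2 = a k * u := Real.sq_sqrt (mul_nonneg (ha k) hu0)
    have h4 : √c ^ 2 = c := Real.sq_sqrt hc0
    nlinarith
  have hsum : ∑ _k : Fin N, -(2 * √3 - 3) ^ d ≤ ∑ k, (a k * ∏ j, (1 - t k j) -
      2 * √(a k) * ∏ j, (2 / 3 * (1 - t k j * √(t k j)))) := Finset.sum_le_sum fun k _ => hterm k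
  rw [Finset.sum_const, Finset.card_univ, Fintype.card_fin, nsmul_eq_mul] at hsum
  have hpow : (1 / 2 : ℝ) ^ d * (4 * √3 - 6) ^ d = (2 * √3 - 3) ^ d := by
    rw [← mul_pow]; congr 1; ring
  calc (1 / 2 : ℝ) ^ d * (1 - N * (4 * √3 - 6) ^ d)
      = (1 / 2) ^ d - N * ((1 / 2) ^ d * (4 * √3 - 6) ^ d) := by ring
    _ = (1 / 2) ^ d + N * -(2 * √3 - 3) ^ d := by rw [hpow]; ring
    _ ≤ _ := by linarith

/-! ### The worst case error as an `L_1`-discrepancy -/

open scoped Classical in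
lemma vol_below {y : Fin d → ℝ} (hy : y ∈ Icc (0 : Fin d → ℝ) 1) :
    ∫ x in Icc (0 : Fin d → ℝ) 1, (if x ≤ y then (1:ℝ) else 0) = ∏ j, y j := by
  have h1 : ∀ x ∈ Icc (0 : Fin d → ℝ) 1, (if x ≤ y then (1:ℝ) else 0) =
      ∏ j, (Iic (y j)).indicator (fun _ => (1:ℝ)) (x j) := by
    intro x hx
    by_cases h : x ≤ y
    · rw [if_pos h]
      symm
      apply Finset.prod_eq_one
      intro j _
      rw [indicator_of_mem (show x j ∈ Iic (y j) from h j)]
    · rw [if_neg h]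
      rw [Pi.le_def] at h
      push Not at h
      obtain ⟨j, hj⟩ := h
      symm
      apply Finset.prod_eq_zero (Finset.mem_univ j)
      rw [indicator_of_notMem]
      simpa using hj
  rw [setIntegral_congr_fun measurableSet_Icc h1,
    prod_int fun j => (Iic (y j)).indicator (fun _ => (1:ℝ))]
  refine Finset.prod_congr rfl fun j _ => ?_
  rw [integral_indicator measurableSet_Iic, Measure.restrict_restrict measurableSet_Iic]
  have h2 : Iic (y j) ∩ Icc 0 1 = Icc 0 (y j) := by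
    ext z; simp only [mem_inter_iff, mem_Iic, mem_Icc]; constructor
    · rintro ⟨a, b, c⟩; exact ⟨b, a⟩
    · rintro ⟨a, b⟩; exact ⟨b, a, b.trans (hy.2 j)⟩
  rw [h2]
  have := hy.1 j
  simp only [Pi.zero_apply] at this
  simp [this]

open scoped Classical in
lemma int_Icc_eq {x : Fin d → ℝ} (hx : x ∈ Icc (0 : Fin d → ℝ) 1) (h : (Fin d → ℝ) → ℝ) :
    ∫ y in Icc x 1, h y = ∫ y in Icc (0 : Fin d → ℝ) 1, (if x ≤ y then (1:ℝ) else 0) * h y := by
  rw [← integral_indicator measurableSet_Icc, ← integral_indicator measurableSet_Icc]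
  congr 1
  ext y
  by_cases h1 : x ≤ y
  · by_cases h2 : y ≤ 1
    · rw [indicator_of_mem (show y ∈ Icc x 1 from ⟨h1, h2⟩),
        indicator_of_mem (show y ∈ Icc (0 : Fin d → ℝ) 1 from ⟨hx.1.trans h1, h2⟩), if_pos h1,
        one_mul]
    · rw [indicator_of_notMem (fun hh => h2 hh.2), indicator_of_notMem (fun hh => h2 hh.2)]
  · rw [indicator_of_notMem (fun hh => h1 hh.1)]
    by_cases h2 : y ∈ Icc (0 : Fin d → ℝ) 1
    · rw [indicator_of_mem h2, if_neg h1, zero_mul]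
    · rw [indicator_of_notMem h2]

open scoped Classical in
/-- The error of the quadrature formula at `f`. -/
lemma error_formula (t : Fin N → Fin d → ℝ) (ht : ∀ k j, t k j ∈ Ico (0:ℝ) 1) (a : Fin N → ℝ)
    {f h : (Fin d → ℝ) → ℝ} (hm : Measurable h) (hb : ∀ᵐ y, |h y| ≤ 1)
    (hf : ∀ x ∈ Icc (0 : Fin d → ℝ) 1, f x = (-1) ^ d * ∫ y in Icc x 1, h y) :
    (∫ x in Icc (0 : Fin d → ℝ) 1, f x) - ∑ k, a k * f (t k) =
      -((-1) ^ d * ∫ y in Icc (0 : Fin d → ℝ) 1, h y * D t a y) := by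
  have hfin := cube_finite (d := d)
  set μ : Measure (Fin d → ℝ) := volume.restrict (Icc 0 1) with hμ
  have hb' : ∀ᵐ y ∂μ, |h y| ≤ 1 := ae_restrict_of_ae hb
  -- Fubini
  have hswap : ∫ x, (∫ y, (if x ≤ y then (1:ℝ) else 0) * h y ∂μ) ∂μ =
      ∫ y, (∫ x, (if x ≤ y then (1:ℝ) else 0) * h y ∂μ) ∂μ := by
    apply integral_integral_swap
    have hms : MeasurableSet {p : (Fin d → ℝ) × (Fin d → ℝ) | p.1 ≤ p.2} :=
      (isClosed_le continuous_fst continuous_snd).measurableSet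
    refine ⟨((Measurable.ite hms measurable_const measurable_const).mul
      (hm.comp measurable_snd)).aestronglyMeasurable, ?_⟩
    apply HasFiniteIntegral.of_bounded (C := 1)
    have h2 : ∀ᵐ p : (Fin d → ℝ) × (Fin d → ℝ) ∂(μ.prod μ), |h p.2| ≤ 1 :=
      Measure.quasiMeasurePreserving_snd.ae hb'
    filter_upwards [h2] with p hp
    simp only [Function.uncurry, Real.norm_eq_abs, abs_mul]
    split_ifs
    · simpa using hp
    · simp
  have hI : ∫ x in Icc (0 : Fin d → ℝ) 1, f x =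
      (-1) ^ d * ∫ y in Icc (0 : Fin d → ℝ) 1, h y * ∏ j, y j := by
    rw [setIntegral_congr_fun measurableSet_Icc (g := fun x => (-1) ^ d *
      ∫ y, (if x ≤ y then (1:ℝ) else 0) * h y ∂μ) (fun x hx => by
        simp only
        rw [hf x hx, int_Icc_eq hx]), integral_const_mul, hswap]
    congr 1
    refine setIntegral_congr_fun measurableSet_Icc fun y hy => ?_
    rw [integral_mul_const, vol_below hy, mul_comm]
  have hint1 : Integrable h μ :=
    ⟨hm.aestronglyMeasurable, HasFiniteIntegral.of_bounded (C := 1) (by simpa using hb')⟩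
  have hintg : ∀ (g : (Fin d → ℝ) → ℝ) (C : ℝ), Measurable g →
      (∀ y ∈ Icc (0 : Fin d → ℝ) 1, |g y| ≤ C) → Integrable (fun y => h y * g y) μ := by
    intro g C hg hC
    refine ⟨(hm.mul hg).aestronglyMeasurable, HasFiniteIntegral.of_bounded (C := C) ?_⟩
    have h3 : ∀ᵐ y ∂μ, y ∈ Icc (0 : Fin d → ℝ) 1 := ae_restrict_mem measurableSet_Icc
    filter_upwards [hb', h3] with y hy hy2
    rw [Real.norm_eq_abs, abs_mul]
    calc |h y| * |g y| ≤ 1 * |g y| := mul_le_mul_of_nonneg_right hy (abs_nonneg _)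
      _ ≤ C := by rw [one_mul]; exact hC y hy2
  have hA : ∀ k, f (t k) = (-1) ^ d *
      ∫ y in Icc (0 : Fin d → ℝ) 1, h y * (Icc (t k) 1).indicator (fun _ => (1:ℝ)) y := by
    intro k
    have hk : t k ∈ Icc (0 : Fin d → ℝ) 1 := ⟨fun j => (ht k j).1, fun j => (ht k j).2.le⟩
    rw [hf _ hk, int_Icc_eq hk]
    congr 1
    refine setIntegral_congr_fun measurableSet_Icc fun y hy => ?_
    by_cases h1 : t k ≤ y
    · rw [if_pos h1, indicator_of_mem (show y ∈ Icc (t k) 1 from ⟨h1, hy.2⟩), mul_comm]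
    · rw [if_neg h1, indicator_of_notMem (fun hh => h1 hh.1), mul_comm]
  rw [hI]
  simp_rw [hA]
  have e1 : ∫ y in Icc (0 : Fin d → ℝ) 1, h y * D t a y =
      ∑ k, a k * (∫ y in Icc (0 : Fin d → ℝ) 1, h y * (Icc (t k) 1).indicator (fun _ => (1:ℝ)) y)
        - ∫ y in Icc (0 : Fin d → ℝ) 1, h y * ∏ j, y j := by
    have hk : ∀ k, Integrable (fun y => a k * (h y * (Icc (t k) 1).indicator (fun _ => (1:ℝ)) y)) μ :=
      fun k => (hintg _ 1 (meas_ind (t k)) fun y _ => by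
        rw [abs_of_nonneg (ind_bdd (t k) y).1]; exact (ind_bdd (t k) y).2).const_mul _
    have hP : Integrable (fun y => h y * ∏ j, y j) μ :=
      hintg _ 1 meas_prod fun y hy => by rw [abs_of_nonneg (prod_bdd hy).1]; exact (prod_bdd hy).2
    have e2 : ∀ y, h y * D t a y =
        ∑ k, a k * (h y * (Icc (t k) 1).indicator (fun _ => (1:ℝ)) y) - h y * ∏ j, y j := by
      intro y
      unfold D
      rw [mul_sub, Finset.mul_sum]
      congr 1
      exact Finset.sum_congr rfl fun k _ => by ring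
    simp_rw [e2]
    rw [integral_sub (integrable_finsetSum _ fun k _ => hk k) hP,
      integral_finsetSum _ fun k _ => hk k]
    simp_rw [integral_const_mul]
    rfl
  rw [e1]
  have e3 : ∀ k, a k * ((-1) ^ d * ∫ y in Icc (0 : Fin d → ℝ) 1,
      h y * (Icc (t k) 1).indicator (fun _ => (1:ℝ)) y) = (-1) ^ d * (a k *
      ∫ y in Icc (0 : Fin d → ℝ) 1, h y * (Icc (t k) 1).indicator (fun _ => (1:ℝ)) y) :=
    fun k => by ring
  simp_rw [e3]
  rw [← Finset.mul_sum]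
  ring

/-- The worst case error is the `L_1`-discrepancy. -/
lemma worst_eq (t : Fin N → Fin d → ℝ) (ht : ∀ k j, t k j ∈ Ico (0:ℝ) 1) (a : Fin N → ℝ) :
    worstError t a = ENNReal.ofReal (∫ y in Icc (0 : Fin d → ℝ) 1, |D t a y|) := by
  have hone : |((-1 : ℝ)) ^ d| = 1 := by simp
  apply le_antisymm
  · refine iSup₂_le fun f hf => ?_
    obtain ⟨h, hm, hb, hf⟩ := hf
    rw [error_formula t ht a hm hb hf, abs_neg, abs_mul, hone, one_mul]
    apply ENNReal.ofReal_le_ofReal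
    refine (abs_integral_le_integral_abs).trans ?_
    have hb' : ∀ᵐ y ∂((volume : Measure (Fin d → ℝ)).restrict (Icc 0 1)), |h y| ≤ 1 :=
      ae_restrict_of_ae hb
    refine integral_mono_of_nonneg (Eventually.of_forall fun y => abs_nonneg _)
      (integrable_D t a).abs ?_
    filter_upwards [hb'] with y hy
    rw [abs_mul]
    exact mul_le_of_le_one_left (abs_nonneg _) hy
  · set h : (Fin d → ℝ) → ℝ := fun y => if 0 ≤ D t a y then 1 else -1 with hh
    have hm : Measurable h :=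
      Measurable.ite (measurableSet_le measurable_const (meas_D t a)) measurable_const
        measurable_const
    have hb : ∀ᵐ y, |h y| ≤ 1 := Eventually.of_forall fun y => by
      rw [hh]; dsimp only; split_ifs <;> simp
    set f : (Fin d → ℝ) → ℝ := fun x => (-1) ^ d * ∫ y in Icc x 1, h y with hf
    have hfm : f ∈ unitBall d := ⟨h, hm, hb, fun x _ => rfl⟩
    refine le_trans (le_of_eq ?_) (le_iSup₂ (f := fun f (_ : f ∈ unitBall d) =>
      ENNReal.ofReal |(∫ x in Icc (0 : Fin d → ℝ) 1, f x) - ∑ k, a k * f (t k)|) f hfm)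
    rw [error_formula t ht a hm hb fun x _ => rfl, abs_neg, abs_mul, hone, one_mul]
    have e : ∀ y, h y * D t a y = |D t a y| := by
      intro y
      rw [hh]
      dsimp only
      split_ifs with h0
      · rw [one_mul, abs_of_nonneg h0]
      · rw [abs_of_neg (not_le.1 h0)]; ring
    simp_rw [e]
    rw [abs_of_nonneg (integral_nonneg fun y => abs_nonneg _)]

/-- The local discrepancy with strict inequalities. -/
lemma D_ae (t : Fin N → Fin d → ℝ) (a : Fin N → ℝ) :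
    ∫ y in Icc (0 : Fin d → ℝ) 1, |D t a y| =
      ∫ x in Icc (0 : Fin d → ℝ) 1,
        |(∑ k, a k * if ∀ j, t k j < x j then (1 : ℝ) else 0) - ∏ j, x j| := by
  apply integral_congr_ae
  have h1 : ∀ k, ∀ᵐ y : Fin d → ℝ, ∀ j, y j ≠ t k j := by
    intro k
    rw [ae_all_iff]
    intro j
    have : (volume : Measure (Fin d → ℝ)) {y | y j = t k j} = 0 := by
      have := Measure.pi_hyperplane (fun _ : Fin d => (volume : Measure ℝ)) j (t k j)
      exact this
    rw [ae_iff]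
    simpa using this
  have h2 : ∀ᵐ y : Fin d → ℝ, ∀ k j, y j ≠ t k j := ae_all_iff.2 h1
  have h3 := ae_restrict_of_ae (s := Icc (0 : Fin d → ℝ) 1) h2
  have h4 : ∀ᵐ y ∂((volume : Measure (Fin d → ℝ)).restrict (Icc 0 1)),
    y ∈ Icc (0 : Fin d → ℝ) 1 := ae_restrict_mem measurableSet_Icc
  filter_upwards [h3, h4] with y hy hyc
  unfold D
  have e : ∀ k, a k * (Icc (t k) 1).indicator (fun _ => (1:ℝ)) y =
      a k * if ∀ j, t k j < y j then (1:ℝ) else 0 := by
    intro k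
    congr 1
    by_cases h : ∀ j, t k j < y j
    · rw [if_pos h, indicator_of_mem]
      exact ⟨fun j => (h j).le, hyc.2⟩
    · rw [if_neg h, indicator_of_notMem]
      intro hh
      exact h fun j => lt_of_le_of_ne (hh.1 j) (hy k j).symm
  simp_rw [e]

/-- **The curse of dimensionality for `p = 1`.**
(1) The worst case error is the generalised `L_1`-discrepancy.
(2) `e⁺(N,d) ≥ 2^{-d} (1 - N (4 √3 - 6)^d)` for all `N` and `d`.
(3) `N⁺(ε,d) ≥ (1 - ε) (1/2 + 1/√3)^d` for all `ε ∈ (0,1)` and all `d`.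
(4) For every `ε ∈ (0,1)` and every `C < 1/2 + 1/√3 = 1.077...` one has `N⁺(ε,d) ≥ C^d` for all
sufficiently large `d`; in particular there are `ε > 0` and `C > 1` with `N⁺(ε,d) ≥ C^d` for
infinitely many `d`. -/
theorem result :
    (∀ (d N : ℕ) (t : Fin N → Fin d → ℝ) (a : Fin N → ℝ), (∀ k j, t k j ∈ Ico (0 : ℝ) 1) →
      (∀ k, 0 ≤ a k) → worstError t a = ENNReal.ofReal (∫ x in Icc (0 : Fin d → ℝ) 1,
        |(∑ k, a k * if ∀ j, t k j < x j then (1 : ℝ) else 0) - ∏ j, x j|)) ∧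
    (∀ d N : ℕ, ENNReal.ofReal ((1 / 2) ^ d * (1 - N * (4 * √3 - 6) ^ d)) ≤ minError N d) ∧
    (∀ ε : ℝ, 0 < ε → ε < 1 → ∀ d : ℕ,
      ENNReal.ofReal ((1 - ε) * (1 / 2 + 1 / √3) ^ d) ≤ ((complexity ε d : ℕ∞) : ℝ≥0∞)) ∧
    (∀ ε : ℝ, 0 < ε → ε < 1 → ∀ C : ℝ, 0 < C → C < 1 / 2 + 1 / √3 → ∀ᶠ d : ℕ in atTop,
      ENNReal.ofReal (C ^ d) ≤ ((complexity ε d : ℕ∞) : ℝ≥0∞)) ∧
    (∃ ε : ℝ, 0 < ε ∧ ∃ C : ℝ, 1 < C ∧ ∃ᶠ d : ℕ in atTop,
      ENNReal.ofReal (C ^ d) ≤ ((complexity ε d : ℕ∞) : ℝ≥0∞)) := by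
  have hw := w_sq
  have hw1 := w_gt
  have hw2 := w_lt
  have hw0 : 0 < √3 := by linarith
  have hC : (1 / 2 + 1 / √3) * (4 * √3 - 6) = 1 := by
    field_simp
    nlinarith
  have h2 : ∀ d N : ℕ, ENNReal.ofReal ((1 / 2) ^ d * (1 - N * (4 * √3 - 6) ^ d)) ≤
      minError N d := by
    intro d N
    refine le_iInf fun t => le_iInf fun a => le_iInf fun ht => le_iInf fun ha => ?_
    rw [worst_eq t ht a]
    exact ENNReal.ofReal_le_ofReal (disc_lower t ht a ha)
  have h3 : ∀ ε : ℝ, 0 < ε → ε < 1 → ∀ d : ℕ,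
      ENNReal.ofReal ((1 - ε) * (1 / 2 + 1 / √3) ^ d) ≤ ((complexity ε d : ℕ∞) : ℝ≥0∞) := by
    intro ε h0 h1 d
    have hkey : ∀ N : ℕ, minError N d ≤ ENNReal.ofReal (ε * (1 / 2) ^ d) →
        (1 - ε) * (1 / 2 + 1 / √3) ^ d ≤ N := by
      intro N hN
      have h4 := (h2 d N).trans hN
      rw [ENNReal.ofReal_le_ofReal_iff (by positivity)] at h4
      have h5 : (0 : ℝ) < (1 / 2) ^ d := by positivity
      have h6 : 1 - N * (4 * √3 - 6) ^ d ≤ ε := by
        have : (1 / 2 : ℝ) ^ d * (1 - N * (4 * √3 - 6) ^ d) ≤ (1 / 2) ^ d * ε := by linarith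
        exact le_of_mul_le_mul_left this h5
      have h7 : 0 < (1 / 2 + 1 / √3 : ℝ) ^ d := by positivity
      have h8 : (1 / 2 + 1 / √3 : ℝ) ^ d * (4 * √3 - 6) ^ d = 1 := by
        rw [← mul_pow, hC, one_pow]
      calc (1 - ε) * (1 / 2 + 1 / √3) ^ d ≤ (N * (4 * √3 - 6) ^ d) * (1 / 2 + 1 / √3) ^ d :=
            mul_le_mul_of_nonneg_right (by linarith) h7.le
        _ = N * ((1 / 2 + 1 / √3) ^ d * (4 * √3 - 6) ^ d) := by ring
        _ = N := by rw [h8, mul_one]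
    unfold complexity
    rcases eq_or_ne (⨅ (N : ℕ) (_ : minError N d ≤ ENNReal.ofReal (ε * (1 / 2) ^ d)), (N : ℕ∞)) ⊤
      with htop | htop
    · rw [htop]; simp
    · obtain ⟨m, hm⟩ := ENat.ne_top_iff_exists.1 htop
      rw [← hm]
      have hlt : (⨅ (N : ℕ) (_ : minError N d ≤ ENNReal.ofReal (ε * (1 / 2) ^ d)), (N : ℕ∞)) <
          ((m + 1 : ℕ) : ℕ∞) := by
        rw [← hm]; exact_mod_cast Nat.lt_succ_self m
      obtain ⟨N, hN⟩ := iInf_lt_iff.1 hlt
      obtain ⟨hN1, hN2⟩ := iInf_lt_iff.1 hN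
      have h9 := hkey N hN1
      have h10 : N ≤ m := by
        have : N < m + 1 := by exact_mod_cast hN2
        omega
      have h11 : (N : ℝ) ≤ m := by exact_mod_cast h10
      calc ENNReal.ofReal ((1 - ε) * (1 / 2 + 1 / √3) ^ d) ≤ ENNReal.ofReal m :=
            ENNReal.ofReal_le_ofReal (h9.trans h11)
        _ = ((m : ℕ∞) : ℝ≥0∞) := by simp
  have h4 : ∀ ε : ℝ, 0 < ε → ε < 1 → ∀ C : ℝ, 0 < C → C < 1 / 2 + 1 / √3 →
      ∀ᶠ d : ℕ in atTop, ENNReal.ofReal (C ^ d) ≤ ((complexity ε d : ℕ∞) : ℝ≥0∞) := by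
    intro ε h0 h1 C hC0 hC1
    have hr : 0 ≤ C / (1 / 2 + 1 / √3) := by positivity
    have hr1 : C / (1 / 2 + 1 / √3) < 1 := (div_lt_one (by positivity)).2 hC1
    have ht := tendsto_pow_atTop_nhds_zero_of_lt_one hr hr1
    have hev := ht.eventually (gt_mem_nhds (show (0:ℝ) < 1 - ε by linarith))
    filter_upwards [hev] with d hd
    refine le_trans (ENNReal.ofReal_le_ofReal ?_) (h3 ε h0 h1 d)
    rw [div_pow, div_lt_iff₀ (by positivity)] at hd
    exact hd.le
  refine ⟨fun d N t a ht _ => by rw [worst_eq t ht a, D_ae], h2, h3, h4, 1 / 2, by norm_num,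
    15 / 14, by norm_num, ?_⟩
  refine (h4 (1 / 2) (by norm_num) (by norm_num) (15 / 14) (by norm_num) ?_).frequently
  have h5 : (4 / 7 : ℝ) ≤ 1 / √3 := by
    rw [div_le_div_iff₀ (by norm_num) hw0]
    linarith
  have h6 : (1 / √3 : ℝ) ≠ 4 / 7 := by
    intro h
    rw [div_eq_div_iff hw0.ne' (by norm_num)] at h
    nlinarith
  have h7 := lt_of_le_of_ne h5 h6.symm
  linarith

end Pool.Agent.Results.MP_2335a4_an.CurseHolds
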